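import Pool.Agent.H22.SZ.TC

/-!
# Simple zeros of products (MP_9f0eeb_nt): exact targets, tools for the Mellin integrals
-/

set_option autoImplicit false

open Complex MeasureTheory Set Filter Topology

namespace Pool.Agent.H22.SZ

open Pool.Agent.H23.GLH (PrimChar)
open Pool.Agent.H74.LI (bar ds)
open Pool.Agent.H28.MZ (co ei dv)

/-- (GC) the Gamma function off the real axis. -/
def T_GC : Prop :=
  ∃ C : ℝ, 0 < C ∧ ∀ x u : ℝ, -(7 / 8) ≤ x → x ≤ 5 / 4 → 1 / 4 ≤ |u| →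
    ‖Complex.Gamma (x + u * I)‖ ≤ C * Real.exp (-|u|)

/-- (SH) shift of the line of integration. -/
def T_SH : Prop :=
  ∀ (b c : ℝ) (k : ℕ), b < c → ∃ C : ℝ, 0 < C ∧ ∀ (F : ℂ → ℂ) (G N : ℝ) (s : ℂ), 1 ≤ N →
    b < s.re → s.re < c → s.re ≤ b + 7 / 8 → c ≤ s.re + 5 / 4 → 1 ≤ s.im →
    (∀ z : ℂ, b ≤ z.re → z.re ≤ c → 1 / 4 ≤ |z.im| →
      DifferentiableAt ℂ F z ∧ ‖F z‖ ≤ G * (1 + |z.im|) ^ k) →
    (Continuous fun v : ℝ => F (b + v * I)) → (Continuous fun v : ℝ => F (c + v * I)) →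
    (∀ v : ℝ, ‖F (b + v * I)‖ ≤ G * (1 + |v|) ^ k ∧ ‖F (c + v * I)‖ ≤ G * (1 + |v|) ^ k) →
    (Integrable fun v : ℝ => F (c + v * I) * cexp ((c + v * I - s) * Real.log N) *
      Complex.Gamma (c + v * I - s)) ∧
    (Integrable fun v : ℝ => F (b + v * I) * cexp ((b + v * I - s) * Real.log N) *
      Complex.Gamma (b + v * I - s)) ∧
    ‖(1 / (2 * Real.pi) : ℝ) * (∫ v : ℝ, F (c + v * I) * cexp ((c + v * I - s) * Real.log N) *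
        Complex.Gamma (c + v * I - s)) -
      (1 / (2 * Real.pi) : ℝ) * (∫ v : ℝ, F (b + v * I) * cexp ((b + v * I - s) * Real.log N) *
        Complex.Gamma (b + v * I - s)) - F s‖ ≤ C * G * N ^ (c - s.re) * Real.exp (-s.im)

/-- (CM) the Cahen-Mellin integral of a Dirichlet series. -/
def T_CM : Prop :=
  ∀ (c N : ℝ) (g : ℕ → ℂ) (s : ℂ), g 0 = 0 → (Summable fun n : ℕ => ‖g n‖ * (n : ℝ) ^ (-c)) →
    s.re < c → 1 ≤ N →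
    (1 / (2 * Real.pi) : ℝ) * (∫ v : ℝ, ds g (c + v * I) * cexp ((c + v * I - s) * Real.log N) *
      Complex.Gamma (c + v * I - s)) =
      ∑' n : ℕ, g n * (Real.exp (-(n / N)) : ℝ) * (n : ℂ) ^ (-s)

/-- (DL) Dirichlet series in the half plane of absolute convergence. -/
def T_DL : Prop :=
  ∀ (π : PrimChar) (z : ℂ), 1 < z.re →
    π.L z = ds (fun n => co π n) z ∧ π.L z ^ 2 = ds (fun n => dd π n) z ∧
    ∀ X : ℕ, π.L z * Mo π X z = ds (am π X) z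

/-- (DC) the coefficients. -/
def T_DC : Prop :=
  (∃ C : ℝ, 0 < C ∧ ∀ n : ℕ, dv n ≤ C * (n : ℝ) ^ (1 / 32 : ℝ)) ∧
  ∀ π : PrimChar, (∀ n, ‖co π n‖ ≤ 1) ∧ (∀ n, ‖dd π n‖ ≤ dv n) ∧ (∀ X n, ‖am π X n‖ ≤ dv n) ∧
    (∀ X : ℕ, 1 ≤ X → am π X 1 = 1) ∧ ∀ X n : ℕ, 2 ≤ n → n ≤ X → am π X n = 0

/-- (A5) the fifth power of the short part. -/
def T_A5 : Prop :=
  ∀ (π : PrimChar) (T : ℝ), 1 ≤ T → ∃ c : ℕ → ℂ, c 0 = 0 ∧
    (∀ n, ‖c n‖ ≤ dv n ^ 4 * Real.exp (-(5 * (n / T) ^ (1 / 5 : ℝ)))) ∧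
    ∀ s : ℂ, Ash π (T ^ (1 / 5 : ℝ)) s ^ 5 = ds c s

/-- (MP) Mertens' estimate for a character. -/
def T_MP : Prop :=
  ∀ (Q : ℕ) [NeZero Q] (χ : DirichletCharacter ℂ Q), χ ≠ 1 → ∃ C : ℝ, ∀ x : ℝ, 1 ≤ x →
    ‖∑ k ∈ Finset.Icc 1 ⌊x⌋₊, ((ArithmeticFunction.vonMangoldt k / k : ℝ) : ℂ) * χ (k : ZMod Q)‖ ≤ C

/-- (MQ) Mertens' formula in arithmetic progressions. -/
def T_MQ : Prop :=
  ∀ Q : ℕ, 1 ≤ Q → ∃ C : ℝ, ∀ F : ℕ → ℂ, Per Q F → (∀ n, ‖F n‖ ≤ 1) → ∀ x : ℝ, 1 ≤ x →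
    ‖∑ k ∈ Finset.Icc 1 ⌊x⌋₊, ((ArithmeticFunction.vonMangoldt k / k : ℝ) : ℂ) * F k -
      ((Real.log x : ℝ) : ℂ) * mc Q F‖ ≤ C

/-- (VS) the vertical sides: from `(L'/L) L'` to `-L (L'/L)'`. -/
def T_VS : Prop :=
  ∀ (f g : ℂ → ℂ) (a b c d : ℝ), a < b → 0 < c → c < d →
    (∀ s : ℂ, c / 2 < s.im → DifferentiableAt ℂ f s ∧ DifferentiableAt ℂ g s) →
    (∀ t ∈ Icc c d, f (a + t * I) ≠ 0 ∧ f (b + t * I) ≠ 0) →
    (∫ t in c..d, logDeriv f (b + t * I) * deriv f (b + t * I) * g (b + t * I)) -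
        (∫ t in c..d, logDeriv f (a + t * I) * deriv f (a + t * I) * g (a + t * I)) =
      (∫ t in c..d, f (a + t * I) * deriv (logDeriv f) (a + t * I) * g (a + t * I)) -
        (∫ t in c..d, f (b + t * I) * deriv (logDeriv f) (b + t * I) * g (b + t * I)) +
      I * ((∫ x in a..b, deriv (deriv f) (x + c * I) * g (x + c * I)) -
        (∫ x in a..b, deriv (deriv f) (x + d * I) * g (x + d * I)))

end Pool.Agent.H22.SZ
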