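import Pool.Agent.H47.DT.Targets1
import Pool.Agent.H74.LI.Defs

/-!
# Simple zeros of products of two Dirichlet L-functions (MP_9f0eeb_nt): definitions
-/

set_option autoImplicit false

open Complex MeasureTheory Set Filter Topology

namespace Pool.Agent.H22.SZ

open Pool.Agent.H23.GLH (PrimChar)
open Pool.Agent.H74.LI (bar ds)
open Pool.Agent.H28.MZ (co ei dv)

/-! ### Zeros -/

open scoped Classical in
/-- the zeros of `L(s, π)` with `0 < Re s < 1` and `a < Im s < b` -/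
noncomputable def zs (π : PrimChar) (a b : ℝ) : Finset ℂ :=
  if h : {ρ : ℂ | 0 < ρ.re ∧ ρ.re < 1 ∧ a < ρ.im ∧ ρ.im < b ∧ π.L ρ = 0}.Finite then h.toFinset
  else ∅

open scoped Classical in
/-- the simple zeros of `L(s, χ)` which are not zeros of `L(s, ψ)` -/
noncomputable def gz (χ ψ : PrimChar) (a b : ℝ) : Finset ℂ :=
  (zs χ a b).filter fun ρ => analyticOrderAt χ.L ρ = 1 ∧ ψ.L ρ ≠ 0

/-- the weight `(m (1 - i η))^{-s}` -/
noncomputable def Kw (η : ℝ) (m : ℕ) (s : ℂ) : ℂ :=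
  cexp (-(s * (Real.log m + Complex.log (1 - η * I))))

/-- the sum over the zeros of `L(s, χ)` -/
noncomputable def Sz (χ ψ : PrimChar) (η : ℝ) (m : ℕ) (a b : ℝ) : ℂ :=
  ∑ ρ ∈ zs χ a b, deriv χ.L ρ * (bar ψ).L (1 - ρ) * Kw η m ρ

/-! ### The functional equation -/

/-- the factor `(2π/q)^{-w} Γ(w) (e^{-πiw/2} + σ e^{πiw/2})` -/
noncomputable def Yk (q : ℕ) (σ w : ℂ) : ℂ :=
  cexp (w * Real.log (q / (2 * Real.pi))) * Complex.Gamma w *
    (cexp (-(Real.pi / 2 * I * w)) + σ * cexp (Real.pi / 2 * I * w))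

/-- the integrand on the vertical lines -/
noncomputable def Ev (χ ψ : PrimChar) (η : ℝ) (m : ℕ) (s : ℂ) : ℂ :=
  χ.L s * deriv (logDeriv χ.L) s * (bar ψ).L (1 - s) * Kw η m s

/-! ### Dirichlet coefficients -/

/-- the value of the character at a natural number -/
noncomputable def cv (π : PrimChar) (n : ℕ) : ℂ := π.χ (n : ZMod π.q)

/-- the coefficients of `L(s, π)` -/
noncomputable def ch (π : PrimChar) : ArithmeticFunction ℂ := ⟨fun n => co π n, by simp [co]⟩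

/-- the coefficients of `(L'/L)'(s, π)` -/
noncomputable def lg (π : PrimChar) : ArithmeticFunction ℂ :=
  ⟨fun n => ((ArithmeticFunction.vonMangoldt n * Real.log n : ℝ) : ℂ) * co π n, by simp [co]⟩

/-- the coefficients of `L(s, χ) (L'/L)'(s, χ) L(s, ψ)` -/
noncomputable def bb (χ ψ : PrimChar) : ArithmeticFunction ℂ := lg χ * ch χ * ch ψ

/-- the sum of the right line -/
noncomputable def SR (χ ψ : PrimChar) (m : ℕ) (η : ℝ) : ℂ :=
  ∑' n : ℕ, bb χ ψ n * cexp (-((n : ℂ) * (2 * Real.pi * m / ψ.q : ℝ) * (η + I)))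

/-- the sum of the left line -/
noncomputable def SL (χ ψ : PrimChar) (m : ℕ) (η : ℝ) : ℂ :=
  ∑' n : ℕ, bb (bar χ) (bar ψ) n * (ei (2 * Real.pi * n / (χ.q * m)) *
    (Real.exp (-(2 * Real.pi * η * n / (χ.q * m * (1 + η ^ 2)))) : ℝ))

/-! ### Periodic functions -/

/-- `μ` has period `Q` -/
def Per (Q : ℕ) (μ : ℕ → ℂ) : Prop := ∀ n, μ (n + Q) = μ n

/-- the mean value over a period -/
noncomputable def mn (Q : ℕ) (μ : ℕ → ℂ) : ℂ := (1 / (Q : ℂ)) * ∑ l ∈ Finset.range Q, μ l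

/-- the value of the series `∑ μ(n)/n` -/
noncomputable def kap (μ : ℕ → ℂ) : ℂ :=
  limUnder atTop (fun N : ℕ => ∑ n ∈ Finset.Icc 1 N, μ n / n)

/-- periodic functions of two variables with total mean `0` -/
structure Per2 (Q : ℕ) (f : ℕ → ℕ → ℂ) : Prop where
  fst : ∀ l n, f (l + Q) n = f l n
  snd : ∀ l n, f l (n + Q) = f l n
  le : ∀ l n, ‖f l n‖ ≤ 1
  mean : ∑ l ∈ Finset.range Q, ∑ n ∈ Finset.range Q, f l n = 0

/-- the main coefficient of a sum of a periodic function of two variables -/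
noncomputable def MM (Q : ℕ) (f : ℕ → ℕ → ℂ) : ℂ :=
  kap (fun n => mn Q fun l => f l n) + kap (fun l => mn Q fun n => f l n)

/-- the sum `∑_{l,n ≥ 1} f(l,n) e^{-ln/x}` -/
noncomputable def TS (f : ℕ → ℕ → ℂ) (x : ℝ) : ℂ :=
  ∑' p : ℕ × ℕ, f (p.1 + 1) (p.2 + 1) *
    (Real.exp (-(((p.1 : ℝ) + 1) * ((p.2 : ℝ) + 1) / x)) : ℝ)

/-- the weighted sum over `k` -/
noncomputable def KS (θ : ℕ → ℂ) (f : ℕ → ℕ → ℕ → ℂ) (D : ℝ) : ℂ :=
  ∑' k : ℕ, ((ArithmeticFunction.vonMangoldt k * Real.log k : ℝ) : ℂ) * θ k * TS (f k) (D / k)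

open scoped Classical in
/-- the mean value over the residue classes prime to `Q` -/
noncomputable def mc (Q : ℕ) (F : ℕ → ℂ) : ℂ :=
  (1 / (Nat.totient Q : ℂ)) * ∑ b ∈ (Finset.range Q).filter (fun b => Nat.Coprime b Q), F b

/-- the functions of two variables on the right line -/
noncomputable def fR (χ ψ : PrimChar) (m k l n : ℕ) : ℂ :=
  cv χ l * cv ψ n * ei (-(2 * Real.pi * (k * l * n * m) / ψ.q))

/-- the functions of two variables on the left line -/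
noncomputable def fL (χ ψ : PrimChar) (m k l n : ℕ) : ℂ :=
  cv (bar χ) l * cv (bar ψ) n * ei (2 * Real.pi * (k * l * n) / (χ.q * m))

/-! ### Short and long part of `L` -/

/-- the short smooth sum `∑ π(n) e^{-n/N} n^{-s}` -/
noncomputable def Ash (π : PrimChar) (N : ℝ) (s : ℂ) : ℂ :=
  ∑' n : ℕ, co π n * (Real.exp (-(n / N)) : ℝ) * (n : ℂ) ^ (-s)

/-- the remaining part -/
noncomputable def Hsh (π : PrimChar) (N : ℝ) (s : ℂ) : ℂ := π.L s - Ash π N s

/-- the mollifier `∑_{n ≤ X} μ(n) π(n) n^{-s}` -/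
noncomputable def Mo (π : PrimChar) (X : ℕ) (s : ℂ) : ℂ :=
  ∑ n ∈ Finset.Icc 1 X, ((ArithmeticFunction.moebius n : ℤ) : ℂ) * co π n * (n : ℂ) ^ (-s)

/-- the coefficients of `L M` -/
noncomputable def am (π : PrimChar) (X : ℕ) (n : ℕ) : ℂ :=
  co π n * ∑ d ∈ n.divisors.filter (· ≤ X), ((ArithmeticFunction.moebius d : ℤ) : ℂ)

/-- the detecting sum `∑_{n > X} a(n) e^{-n/X} n^{-s}` -/
noncomputable def Dt (π : PrimChar) (X : ℕ) (s : ℂ) : ℂ :=
  ∑' n : ℕ, if n ≤ X then 0 else am π X n * (Real.exp (-(n / (X : ℝ))) : ℝ) * (n : ℂ) ^ (-s)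

end Pool.Agent.H22.SZ
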