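import Pool.Agent.H22.SZ.Defs

/-!
# Simple zeros of products (MP_9f0eeb_nt): exact targets of the first moment
-/

set_option autoImplicit false

open Complex MeasureTheory Set Filter Topology

namespace Pool.Agent.H22.SZ

open Pool.Agent.H23.GLH (PrimChar)
open Pool.Agent.H74.LI (bar ds)
open Pool.Agent.H28.MZ (co ei dv)

/-! ### Basic facts -/

/-- (ZF) membership in `zs`. -/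
def T_ZF : Prop :=
  ∀ (π : PrimChar) (a b : ℝ) (ρ : ℂ), 0 ≤ a →
    (ρ ∈ zs π a b ↔ 0 < ρ.re ∧ ρ.re < 1 ∧ a < ρ.im ∧ ρ.im < b ∧ π.L ρ = 0)

/-- (KB) bounds for the weight. -/
def T_KB : Prop :=
  (∀ (η : ℝ) (m : ℕ), 0 ≤ η → η ≤ 1 / 2 → 1 ≤ m → Differentiable ℂ (Kw η m)) ∧
  (∀ (η : ℝ) (m : ℕ) (s : ℂ), 0 ≤ η → η ≤ 1 / 2 → 1 ≤ m → -(1 / 4) ≤ s.re → s.re ≤ 5 / 4 →
    0 ≤ s.im → ‖Kw η m s‖ ≤ 2 * m * Real.exp (-(η / 2 * s.im))) ∧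
  (∀ (η : ℝ) (m : ℕ) (s : ℂ), 0 ≤ η → η ≤ 1 / 2 → 1 ≤ m → 0 ≤ s.re → 0 ≤ s.im →
    ‖Kw η m s‖ ≤ Real.exp (-(η / 2 * s.im)))

/-- (FE) the functional equation. -/
def T_FE : Prop :=
  ∀ π : PrimChar, ∃ a σ : ℂ, a ≠ 0 ∧ (σ = 1 ∨ σ = -1) ∧ ∀ w : ℂ, w.im ≠ 0 →
    π.L (1 - w) = a * Yk π.q σ w * (bar π).L w

/-- (YS) size of the factor. -/
def T_YS : Prop :=
  ∀ (q : ℕ) (σ : ℂ), 1 ≤ q → (σ = 1 ∨ σ = -1) → ∃ C : ℝ, 0 < C ∧ ∀ x v : ℝ, 1 / 8 ≤ x → x ≤ 2 →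
    ‖Yk q σ (x + v * I)‖ ≤ C * (1 + |v|) ^ (x - 1 / 2)

/-- (YD) the derivative of the logarithmic derivative of the factor. -/
def T_YD : Prop :=
  ∀ (q : ℕ) (σ : ℂ), 1 ≤ q → (σ = 1 ∨ σ = -1) → ∃ C : ℝ, 0 < C ∧ ∀ t : ℝ, 1 ≤ t →
    (∀ᶠ w in 𝓝 ((5 / 4 : ℂ) - t * I), Yk q σ w ≠ 0 ∧ DifferentiableAt ℂ (Yk q σ) w) ∧
    ‖deriv (logDeriv (Yk q σ)) ((5 / 4 : ℂ) - t * I)‖ ≤ C / t

/-- (ME) Mellin inversion on the line `5/4`. -/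
def T_ME : Prop :=
  ∀ z : ℂ, 0 < z.re →
    Integrable (fun t : ℝ => Complex.Gamma (5 / 4 + t * I) * cexp (-((5 / 4 + t * I) * Complex.log z)))
    ∧ (1 / (2 * Real.pi) : ℝ) * (∫ t : ℝ, Complex.Gamma (5 / 4 + t * I) *
        cexp (-((5 / 4 + t * I) * Complex.log z))) = cexp (-z)

/-- (RL) the right line. -/
def T_RL : Prop :=
  ∀ (q m : ℕ) (σ : ℂ) (g : ℕ → ℂ) (B t₀ : ℝ), 1 ≤ q → 1 ≤ m → (σ = 1 ∨ σ = -1) → g 0 = 0 →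
    (∀ n, ‖g n‖ ≤ B * (n : ℝ) ^ (1 / 8 : ℝ)) → 1 ≤ t₀ → t₀ ≤ 2 → ∃ C : ℝ, ∀ η : ℝ, 0 < η →
    η ≤ 1 / 2 →
    IntegrableOn (fun t : ℝ => ds g (5 / 4 + t * I) * Yk q σ (5 / 4 + t * I) *
      Kw η m (5 / 4 + t * I)) (Ioi t₀) ∧
    ‖(1 / (2 * Real.pi) : ℝ) * (∫ t in Ioi t₀, ds g (5 / 4 + t * I) * Yk q σ (5 / 4 + t * I) *
        Kw η m (5 / 4 + t * I)) -
      ∑' n : ℕ, g n * cexp (-((n : ℂ) * (2 * Real.pi * m / q : ℝ) * (η + I)))‖ ≤ C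

/-- (LN) the left line. -/
def T_LN : Prop :=
  ∀ (q m : ℕ) (σ : ℂ) (g : ℕ → ℂ) (B t₀ : ℝ), 1 ≤ q → 1 ≤ m → (σ = 1 ∨ σ = -1) → g 0 = 0 →
    (∀ n, ‖g n‖ ≤ B * (n : ℝ) ^ (1 / 8 : ℝ)) → 1 ≤ t₀ → t₀ ≤ 2 → ∃ C : ℝ, ∀ η : ℝ, 0 < η →
    η ≤ 1 / 2 →
    IntegrableOn (fun t : ℝ => ds g (5 / 4 - t * I) * Yk q σ (5 / 4 - t * I) *
      Kw η m (-(1 / 4) + t * I)) (Ioi t₀) ∧
    ‖(1 / (2 * Real.pi) : ℝ) * (∫ t in Ioi t₀, ds g (5 / 4 - t * I) * Yk q σ (5 / 4 - t * I) *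
        Kw η m (-(1 / 4) + t * I)) -
      σ / (m * (1 - η * I)) * ∑' n : ℕ, g n *
        cexp (-((n : ℂ) * (2 * Real.pi / (q * m) : ℝ) * ((η - I) / (1 + η ^ 2))))‖ ≤ C

/-- (PH) the phase of the left line. -/
def T_PH : Prop :=
  ∀ (q m : ℕ) (g : ℕ → ℂ) (B : ℝ), 1 ≤ q → 1 ≤ m → g 0 = 0 →
    (∀ n, ‖g n‖ ≤ B * (n : ℝ) ^ (1 / 8 : ℝ)) → ∃ C : ℝ, ∀ η : ℝ, 0 < η → η ≤ 1 / 2 →
    ‖1 / (1 - η * I) * (∑' n : ℕ, g n *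
        cexp (-((n : ℂ) * (2 * Real.pi / (q * m) : ℝ) * ((η - I) / (1 + η ^ 2))))) -
      ∑' n : ℕ, g n * (ei (2 * Real.pi * n / (q * m)) *
        (Real.exp (-(2 * Real.pi * η * n / (q * m * (1 + η ^ 2)))) : ℝ))‖ ≤
      C * η ^ (-(1 / 2) : ℝ)

/-- (BB) size of the coefficients. -/
def T_BB : Prop :=
  ∀ χ ψ : PrimChar, ∃ B : ℝ, 0 < B ∧ ∀ n : ℕ, ‖bb χ ψ n‖ ≤ B * (n : ℝ) ^ (1 / 8 : ℝ)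

/-- (DS) the Dirichlet series. -/
def T_DS : Prop :=
  ∀ (χ ψ : PrimChar) (s : ℂ), 5 / 4 ≤ s.re →
    χ.L s ≠ 0 ∧ χ.L s * deriv (logDeriv χ.L) s * ψ.L s = ds (bb χ ψ) s

/-- (RP) the residue theorem for `(f'/f) f' g` on a rectangle. -/
def T_RP : Prop :=
  ∀ (f g : ℂ → ℂ) (a b c d : ℝ) (Z : Finset ℂ), a < b → 0 < c → c < d →
    (∀ s : ℂ, c / 2 < s.im → DifferentiableAt ℂ f s ∧ DifferentiableAt ℂ g s) →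
    (∀ x ∈ Icc a b, f (x + c * I) ≠ 0 ∧ f (x + d * I) ≠ 0) →
    (∀ t ∈ Icc c d, f (a + t * I) ≠ 0 ∧ f (b + t * I) ≠ 0) →
    (∀ z : ℂ, z ∈ Z ↔ a < z.re ∧ z.re < b ∧ c < z.im ∧ z.im < d ∧ f z = 0) →
    (∫ x in a..b, logDeriv f (x + c * I) * deriv f (x + c * I) * g (x + c * I)) +
        I * (∫ t in c..d, logDeriv f (b + t * I) * deriv f (b + t * I) * g (b + t * I)) -
        (∫ x in a..b, logDeriv f (x + d * I) * deriv f (x + d * I) * g (x + d * I)) -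
        I * (∫ t in c..d, logDeriv f (a + t * I) * deriv f (a + t * I) * g (a + t * I)) =
      2 * Real.pi * I * ∑ z ∈ Z, deriv f z * g z

/-- (HG) good heights. -/
def T_HG : Prop :=
  ∀ π : PrimChar, ∃ C : ℝ, ∀ B : ℝ, ∃ V : ℝ, B ≤ V ∧ ∀ x ∈ Icc (-(1 / 4) : ℝ) (5 / 4),
    π.L (x + V * I) ≠ 0 ∧ ‖deriv π.L (x + V * I)‖ ≤ V ^ C * ‖π.L (x + V * I)‖

/-- (PB) polynomial bounds for `L` and its derivatives. -/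
def T_PB : Prop :=
  ∀ π : PrimChar, ∃ C : ℝ, 0 < C ∧ ∀ s : ℂ, -(1 / 2) ≤ s.re → s.re ≤ 3 / 2 → 1 ≤ |s.im| →
    ‖π.L s‖ ≤ C * |s.im| ^ 3 ∧ ‖deriv π.L s‖ ≤ C * |s.im| ^ 3 ∧
      ‖deriv (deriv π.L) s‖ ≤ C * |s.im| ^ 3

/-- (VL) the sum over the zeros and the vertical lines. -/
def T_VL : Prop :=
  ∀ χ ψ : PrimChar, ∃ t₀ : ℝ, 1 < t₀ ∧ t₀ < 2 ∧ ∀ m : ℕ, 1 ≤ m → ∃ C : ℝ, ∀ η : ℝ, 0 < η →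
    η ≤ 1 / 2 → ∀ B : ℝ, ∃ V : ℝ, B ≤ V ∧
    ‖Sz χ ψ η m t₀ V - ((1 / (2 * Real.pi) : ℝ) * (∫ t in t₀..V, Ev χ ψ η m (-(1 / 4) + t * I)) -
      (1 / (2 * Real.pi) : ℝ) * (∫ t in t₀..V, Ev χ ψ η m (5 / 4 + t * I)))‖ ≤ C

/-- (LI) the integrand on the left line. -/
def T_LI : Prop :=
  ∀ (χ ψ : PrimChar) (a σ : ℂ), a ≠ 0 → (σ = 1 ∨ σ = -1) →
    (∀ w : ℂ, w.im ≠ 0 → χ.L (1 - w) = a * Yk χ.q σ w * (bar χ).L w) →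
    ∀ (η : ℝ) (m : ℕ) (t : ℝ), 1 ≤ t →
      Ev χ ψ η m (-(1 / 4) + t * I) =
        a * (ds (bb (bar χ) (bar ψ)) (5 / 4 - t * I) * Yk χ.q σ (5 / 4 - t * I) *
          Kw η m (-(1 / 4) + t * I)) +
        a * (Yk χ.q σ (5 / 4 - t * I) * deriv (logDeriv (Yk χ.q σ)) (5 / 4 - t * I) *
          (bar χ).L (5 / 4 - t * I) * (bar ψ).L (5 / 4 - t * I) * Kw η m (-(1 / 4) + t * I))

/-- (EF) the explicit formula. -/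
def T_EF : Prop :=
  ∀ χ ψ : PrimChar, ∃ (t₀ : ℝ) (aL aR : ℂ), 1 < t₀ ∧ t₀ < 2 ∧ aL ≠ 0 ∧ aR ≠ 0 ∧
    ∀ m : ℕ, 1 ≤ m → ∃ C : ℝ, ∀ η : ℝ, 0 < η → η ≤ 1 / 2 → ∀ B : ℝ, ∃ V : ℝ, B ≤ V ∧
    ‖Sz χ ψ η m t₀ V - (aL / m * SL χ ψ m η - aR * SR χ ψ m η)‖ ≤ C * η ^ (-(3 / 4) : ℝ)

/-! ### Sums of periodic functions -/

/-- (KA) the series `∑ μ(n)/n`. -/
def T_KA : Prop :=
  ∀ (Q : ℕ) (μ : ℕ → ℂ) (B : ℝ), 1 ≤ Q → Per Q μ → (∀ n, ‖μ n‖ ≤ B) →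
    ∑ n ∈ Finset.range Q, μ n = 0 → ∀ N : ℕ, 1 ≤ N →
      ‖∑ n ∈ Finset.Icc 1 N, μ n / n - kap μ‖ ≤ 2 * Q * B / N

/-- (S1) functions of one variable. -/
def T_S1 : Prop :=
  ∀ Q : ℕ, 1 ≤ Q → ∃ C : ℝ, ∀ μ : ℕ → ℂ, Per Q μ → (∀ n, ‖μ n‖ ≤ 1) →
    ∑ n ∈ Finset.range Q, μ n = 0 → ∀ x : ℝ, 1 ≤ x →
      ‖TS (fun _ n => μ n) x - x * kap μ‖ ≤ C ∧ ‖TS (fun l _ => μ l) x - x * kap μ‖ ≤ C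

/-- (S2) functions with mean `0` in each variable. -/
def T_S2 : Prop :=
  ∀ Q : ℕ, 1 ≤ Q → ∃ C : ℝ, ∀ g : ℕ → ℕ → ℂ, (∀ l n, g (l + Q) n = g l n) →
    (∀ l n, g l (n + Q) = g l n) → (∀ l n, ‖g l n‖ ≤ 3) →
    (∀ l, ∑ n ∈ Finset.range Q, g l n = 0) → (∀ n, ∑ l ∈ Finset.range Q, g l n = 0) →
    ∀ x : ℝ, 1 ≤ x → ‖TS g x‖ ≤ C * Real.sqrt x

/-- (TV) functions of two variables. -/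
def T_TV : Prop :=
  ∀ Q : ℕ, 1 ≤ Q → ∃ C : ℝ, 0 < C ∧ ∀ f : ℕ → ℕ → ℂ, Per2 Q f →
    ‖MM Q f‖ ≤ C ∧ (∀ x : ℝ, 1 ≤ x → ‖TS f x - x * MM Q f‖ ≤ C * Real.sqrt x) ∧
    ∀ x : ℝ, 0 < x → x ≤ 1 → ‖TS f x‖ ≤ C * Real.exp (-(1 / x))

/-- (MA) Mertens' formula in arithmetic progressions, with a logarithm. -/
def T_MA : Prop :=
  ∀ Q : ℕ, 1 ≤ Q → ∃ C : ℝ, ∀ F : ℕ → ℂ, Per Q F → (∀ n, ‖F n‖ ≤ 1) → ∀ x : ℝ, 2 ≤ x →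
    ‖∑ k ∈ Finset.Icc 1 ⌊x⌋₊,
        ((ArithmeticFunction.vonMangoldt k * Real.log k / k : ℝ) : ℂ) * F k -
      ((Real.log x ^ 2 / 2 : ℝ) : ℂ) * mc Q F‖ ≤ C * Real.log x

/-- (KS) the sum over `k`. -/
def T_KS : Prop :=
  ∀ Q : ℕ, 1 ≤ Q → ∃ C : ℝ, ∀ (θ : ℕ → ℂ) (f : ℕ → ℕ → ℕ → ℂ), Per Q θ → (∀ n, ‖θ n‖ ≤ 1) →
    (∀ k, Per2 Q (f k)) → (∀ k, f (k + Q) = f k) → ∀ D : ℝ, 2 ≤ D →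
      ‖KS θ f D - ((D * Real.log D ^ 2 / 2 : ℝ) : ℂ) * mc Q (fun b => θ b * MM Q (f b))‖ ≤
        C * (D * Real.log D)

/-- (CV) from one variable to three. -/
def T_CV : Prop :=
  ∀ (χ ψ : PrimChar) (m : ℕ) (η : ℝ), 1 ≤ m → 0 < η → η ≤ 1 / 2 →
    SR χ ψ m η = KS (cv χ) (fR χ ψ m) (ψ.q / (2 * Real.pi * η * m)) ∧
    SL χ ψ m η = KS (cv (bar χ)) (fL χ ψ m) (χ.q * m * (1 + η ^ 2) / (2 * Real.pi * η))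

/-! ### Means -/

/-- (G1) the Gauss sum of a primitive character. -/
def T_G1 : Prop :=
  ∀ π : PrimChar, ∃ g : ℂ, g ≠ 0 ∧ ∀ (Q : ℕ) (a : ℤ), 1 ≤ Q → π.q ∣ Q →
    mn Q (fun l => cv π l * ei (2 * Real.pi * (l * a) / π.q)) =
      g * (bar π).χ (a : ZMod (bar π).q)

/-- (G2) the modulus `q m`. -/
def T_G2 : Prop :=
  ∀ (π : PrimChar) (Q m : ℕ) (a : ℤ), 1 ≤ Q → 1 ≤ m → π.q * m ∣ Q → ¬ (m : ℤ) ∣ a →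
    mn Q (fun l => cv π l * ei (2 * Real.pi * (l * a) / (π.q * m))) = 0

/-- (G3) another conductor. -/
def T_G3 : Prop :=
  ∀ (π : PrimChar) (q Q : ℕ) (a : ℤ), 1 ≤ q → 1 ≤ Q → π.q ≠ q → π.q ∣ Q → q ∣ Q →
    IsCoprime a (q : ℤ) → mn Q (fun l => cv π l * ei (2 * Real.pi * (l * a) / q)) = 0

/-- (KL) the value at `1`. -/
def T_KL : Prop :=
  ∀ χ ψ : PrimChar, χ ≠ ψ →
    kap (fun n => cv χ n * cv (bar ψ) n) ≠ 0 ∧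
    (∀ Q : ℕ, 1 ≤ Q → χ.q ∣ Q → ψ.q ∣ Q →
      ∑ n ∈ Finset.range Q, cv χ n * cv (bar ψ) n = 0 ∧ mc Q (fun n => cv χ n * cv (bar ψ) n) = 0)

/-- (PM) a prime which separates the characters. -/
def T_PM : Prop :=
  ∀ χ ψ : PrimChar, χ ≠ ψ → χ.q = ψ.q → ∃ p : ℕ, p.Prime ∧ Nat.Coprime p χ.q ∧ cv χ p ≠ cv ψ p

/-- the two main constants -/
noncomputable def cL (χ ψ : PrimChar) (m : ℕ) : ℂ :=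
  mc (χ.q * ψ.q * m) fun b => cv (bar χ) b * MM (χ.q * ψ.q * m) (fL χ ψ m b)

/-- the two main constants -/
noncomputable def cR (χ ψ : PrimChar) (m : ℕ) : ℂ :=
  mc (χ.q * ψ.q * m) fun b => cv χ b * MM (χ.q * ψ.q * m) (fR χ ψ m b)

/-- (P2) the functions of two variables have total mean `0`. -/
def T_P2 : Prop :=
  ∀ (χ ψ : PrimChar) (m : ℕ), χ ≠ ψ → (m = 1 ∨ m.Prime) →
    (∀ k, Per2 (χ.q * ψ.q * m) (fR χ ψ m k)) ∧ (∀ k, Per2 (χ.q * ψ.q * m) (fL χ ψ m k)) ∧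
    (∀ k, fR χ ψ m (k + χ.q * ψ.q * m) = fR χ ψ m k) ∧
    (∀ k, fL χ ψ m (k + χ.q * ψ.q * m) = fL χ ψ m k)

/-- (CA) the constants for different conductors. -/
def T_CA : Prop :=
  ∀ χ ψ : PrimChar, χ.q ≠ ψ.q → cL χ ψ 1 ≠ 0 ∧ cR χ ψ 1 = 0

/-- (CB) the constants for equal conductors. -/
def T_CB : Prop :=
  ∀ χ ψ : PrimChar, χ ≠ ψ → χ.q = ψ.q → ∃ A B : ℂ, A ≠ 0 ∧
    ∀ m : ℕ, Nat.Coprime m χ.q → (m = 1 ∨ m.Prime) →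
      cL χ ψ m = A * cv (bar ψ) m / m ∧ cR χ ψ m = B * cv (bar χ) m

/-- (MT) the main term. -/
def T_MT : Prop :=
  ∀ (χ ψ : PrimChar) (aL aR : ℂ), χ ≠ ψ → aL ≠ 0 → aR ≠ 0 → ∃ (m : ℕ) (c₀ η₀ : ℝ), 1 ≤ m ∧
    0 < c₀ ∧ 0 < η₀ ∧ ∀ η : ℝ, 0 < η → η ≤ η₀ →
      c₀ * (η⁻¹ * Real.log (1 / η) ^ 2) ≤ ‖aL / m * SL χ ψ m η - aR * SR χ ψ m η‖

/-- (FM) the lower bound for the sum over the zeros. -/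
def T_FM : Prop :=
  ∀ χ ψ : PrimChar, χ ≠ ψ → ∃ (m : ℕ) (t₀ c₀ η₀ : ℝ), 1 ≤ m ∧ 1 < t₀ ∧ t₀ < 2 ∧ 0 < c₀ ∧
    0 < η₀ ∧ η₀ ≤ 1 / 2 ∧ ∀ η : ℝ, 0 < η → η ≤ η₀ → ∀ B : ℝ, ∃ V : ℝ, B ≤ V ∧
      c₀ * (η⁻¹ * Real.log (1 / η) ^ 2) ≤ ‖Sz χ ψ η m t₀ V‖

end Pool.Agent.H22.SZ
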