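import Pool.Agent.H22.SZ.TA

/-!
# Simple zeros of products (MP_9f0eeb_nt): exact targets of the upper bound
-/

set_option autoImplicit false

open Complex MeasureTheory Set Filter Topology

namespace Pool.Agent.H22.SZ

open Pool.Agent.H23.GLH (PrimChar)
open Pool.Agent.H74.LI (bar ds)
open Pool.Agent.H28.MZ (co ei dv)

/-- the coefficients of `L(s, π)²` -/
noncomputable def dd (π : PrimChar) : ArithmeticFunction ℂ := ch π * ch π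

/-- the tail of the dual series on the line `5/4` -/
noncomputable def B1 (π : PrimChar) (T v : ℝ) : ℂ :=
  ∑' n : ℕ, if (n : ℝ) ≤ T then 0 else dd (bar π) n * (n : ℂ) ^ (-(5 / 4 - v * I))

/-- the beginning of the dual series -/
noncomputable def B2 (π : PrimChar) (T : ℝ) (z : ℂ) : ℂ :=
  ∑ n ∈ Finset.Icc 1 ⌊T⌋₊, dd (bar π) n * (n : ℂ) ^ (-(1 - z))

/-- the smooth sum for `L²` -/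
noncomputable def B0 (π : PrimChar) (T : ℝ) (s : ℂ) : ℂ :=
  ∑' n : ℕ, dd π n * (Real.exp (-(n / T)) : ℝ) * (n : ℂ) ^ (-s)

/-- the first error integral -/
noncomputable def E1 (π : PrimChar) (a σ : ℂ) (T : ℝ) (s : ℂ) : ℂ :=
  (1 / (2 * Real.pi) : ℝ) * ∫ v : ℝ, (a * Yk π.q σ (5 / 4 - v * I)) ^ 2 * B1 π T v *
    cexp ((-(1 / 4) + v * I - s) * Real.log T) * Complex.Gamma (-(1 / 4) + v * I - s)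

/-- the second error integral -/
noncomputable def E2 (π : PrimChar) (a σ : ℂ) (T : ℝ) (s : ℂ) : ℂ :=
  (1 / (2 * Real.pi) : ℝ) * ∫ v : ℝ, (a * Yk π.q σ (1 / 4 - v * I)) ^ 2 * B2 π T (3 / 4 + v * I) *
    cexp ((3 / 4 + v * I - s) * Real.log T) * Complex.Gamma (3 / 4 + v * I - s)

/-! ### General tools -/

/-- (CO) the contribution of a zero. -/
def T_CO : Prop :=
  ∀ χ ψ : PrimChar, ∃ C : ℝ, 0 < C ∧ ∀ ρ : ℂ, χ.L ρ = 0 → 0 < ρ.re → ρ.re < 1 → 1 ≤ ρ.im →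
    ∃ ρ' : ℂ, (ρ' = ρ ∨ ρ' = 1 - (starRingEnd ℂ) ρ) ∧ 1 / 2 ≤ ρ'.re ∧ ρ'.re < 1 ∧ χ.L ρ' = 0 ∧
      ‖deriv χ.L ρ‖ * ‖(bar ψ).L (1 - ρ)‖ ≤
        C * ρ.im ^ (ρ'.re - 1 / 2) * (‖deriv χ.L ρ'‖ * ‖ψ.L ρ'‖)

/-- (GD) only good zeros contribute. -/
def T_GD : Prop :=
  ∀ (χ ψ : PrimChar) (a b : ℝ) (ρ : ℂ), 0 ≤ a → ρ ∈ zs χ a b →
    deriv χ.L ρ * (bar ψ).L (1 - ρ) ≠ 0 → ρ ∈ gz χ ψ a b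

/-- (WC) zeros in windows of length 2. -/
def T_WC : Prop :=
  ∀ π : PrimChar, ∃ C : ℝ, 0 < C ∧ ∀ t : ℝ, 2 ≤ t →
    ((zs π (t - 1) (t + 1)).card : ℝ) ≤ C * Real.log t

/-- (MVW) mean value theorem for Dirichlet series. -/
def T_MVW : Prop :=
  ∃ C : ℝ, 0 < C ∧ ∀ (a : ℕ → ℂ) (τ T : ℝ), a 0 = 0 → 1 ≤ T →
    (Summable fun n : ℕ => ‖a n‖ ^ 2 * (1 + n / T) ^ (5 / 4 : ℝ)) →
    (Summable fun n : ℕ => ‖a n‖) ∧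
    ∫ t in τ..(τ + T), ‖∑' n : ℕ, a n * (n : ℂ) ^ (-(t * I) : ℂ)‖ ^ 2 ≤
      C * T * ∑' n : ℕ, ‖a n‖ ^ 2 * (1 + n / T) ^ (5 / 4 : ℝ)

/-- (DVW) weighted divisor sums. -/
def T_DVW : Prop :=
  ∀ j : ℕ, ∃ (C : ℕ) (T₀ : ℝ), ∀ T : ℝ, T₀ ≤ T →
    (Summable fun n : ℕ => dv n ^ j * (n : ℝ) ^ (-1 + 4 / Real.log T) *
      (1 + n / T) ^ (5 / 4 : ℝ) * Real.exp (-((n / T) ^ (1 / 5 : ℝ)))) ∧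
    ∑' n : ℕ, dv n ^ j * (n : ℝ) ^ (-1 + 4 / Real.log T) *
      (1 + n / T) ^ (5 / 4 : ℝ) * Real.exp (-((n / T) ^ (1 / 5 : ℝ))) ≤ Real.log T ^ C

/-- (DVT) the tail of a divisor sum. -/
def T_DVT : Prop :=
  ∀ j : ℕ, ∃ (C : ℕ) (T₀ : ℝ), ∀ T : ℝ, T₀ ≤ T →
    (Summable fun n : ℕ => if (n : ℝ) ≤ T then 0 else
      dv n ^ j * (n : ℝ) ^ (-(5 / 2) : ℝ) * (1 + n / T) ^ (5 / 4 : ℝ)) ∧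
    (∑' n : ℕ, if (n : ℝ) ≤ T then 0 else
      dv n ^ j * (n : ℝ) ^ (-(5 / 2) : ℝ) * (1 + n / T) ^ (5 / 4 : ℝ)) ≤
      T ^ (-(3 / 2) : ℝ) * Real.log T ^ C

/-- (GB) the Gamma function. -/
def T_GB : Prop :=
  ∃ C : ℝ, 0 < C ∧ ∀ x u : ℝ, -(7 / 8) ≤ x → x ≤ 5 / 4 → x ≠ 0 →
    ‖Complex.Gamma (x + u * I)‖ ≤ C / |x| * Real.exp (-|u|)

/-- (CX) moments of a convolution with `e^{-|v|}`. -/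
def T_CX : Prop :=
  ∀ (p : ℝ) (k : ℕ), 1 ≤ p → ∃ C : ℝ, 0 < C ∧ ∀ (g : ℝ → ℝ) (A B R G : ℝ), Continuous g →
    (∀ v, 0 ≤ g v ∧ g v ≤ G * (1 + |v|) ^ k) → A ≤ B → 1 ≤ R →
    (∀ t, Integrable fun v : ℝ => g v * Real.exp (-|v - t|)) ∧
    ∫ t in A..B, (∫ v : ℝ, g v * Real.exp (-|v - t|)) ^ p ≤
      C * ((∫ v in (A - R)..(B + R), g v ^ p) +
        G ^ p * (1 + |A| + |B|) ^ (k * p + 1) * Real.exp (-(R / 2)))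

/-- (CS) the same for sums over zeros. -/
def T_CS : Prop :=
  ∀ (π : PrimChar) (p : ℝ) (k : ℕ), 1 ≤ p → ∃ C T₀ : ℝ, 0 < C ∧ ∀ (T : ℝ) (g : ℝ → ℝ) (G : ℝ),
    T₀ ≤ T → Continuous g → (∀ v, 0 ≤ g v ∧ g v ≤ G * (1 + |v|) ^ k) →
    ∑ ρ ∈ zs π 1 T, (∫ v : ℝ, g v * Real.exp (-|v - ρ.im|)) ^ p ≤
      C * (Real.log T * (∫ v in (-T)..(3 * T), g v ^ p) +
        G ^ p * T ^ (k * p + 2) * Real.exp (-(T / 2)))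

/-- (ZD) sums over zeros from mean values (discs of radius `1/log T`). -/
def T_ZD : Prop :=
  ∀ (π : PrimChar) (p : ℝ), 1 ≤ p → ∃ (C : ℕ) (T₀ : ℝ), ∀ (T b σ₁ σ₂ J : ℝ) (F : ℂ → ℂ)
    (S : Finset ℂ), T₀ ≤ T → 1 ≤ b → b ≤ T → σ₁ ≤ σ₂ → σ₂ ≤ σ₁ + 1 → S ⊆ zs π (b + 1) T →
    (∀ ρ ∈ S, σ₁ ≤ ρ.re ∧ ρ.re ≤ σ₂) → (∀ s : ℂ, 1 / 2 < s.im → DifferentiableAt ℂ F s) →
    (∀ σ : ℝ, σ₁ - 1 / Real.log T ≤ σ → σ ≤ σ₂ + 1 / Real.log T →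
      ∫ t in b..(2 * T), ‖F (σ + t * I)‖ ^ p ≤ J) →
    ∑ ρ ∈ S, (‖F ρ‖ ^ p + ‖deriv F ρ‖ ^ p) ≤ J * Real.log T ^ C

/-! ### The fourth moment -/

/-- (LQ) the formula for `L²`. -/
def T_LQ : Prop :=
  ∀ (π : PrimChar) (a σ : ℂ), (σ = 1 ∨ σ = -1) →
    (∀ w : ℂ, w.im ≠ 0 → π.L (1 - w) = a * Yk π.q σ w * (bar π).L w) →
    ∃ C : ℝ, ∀ (T : ℝ) (s : ℂ), 3 ≤ T → 3 / 8 ≤ s.re → s.re ≤ 5 / 8 → 1 ≤ s.im →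
      ‖π.L s ^ 2 - B0 π T s - (a * Yk π.q σ (1 - s)) ^ 2 * B2 π T s + E1 π a σ T s +
        E2 π a σ T s‖ ≤ C * T ^ 2 * Real.exp (-s.im)

/-- (Q1) -/
def T_Q1 : Prop :=
  ∀ π : PrimChar, ∃ (C : ℕ) (T₀ : ℝ), ∀ T x : ℝ, T₀ ≤ T → |x - 1 / 2| ≤ 2 / Real.log T →
    (∫ t in T..(2 * T), ‖B0 π T (x + t * I)‖ ^ 2 ≤ T * Real.log T ^ C) ∧
    ∫ t in T..(2 * T), ‖B2 π T (x + t * I)‖ ^ 2 ≤ T * Real.log T ^ C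

/-- (Q3) -/
def T_Q3 : Prop :=
  ∀ (π : PrimChar) (a σ : ℂ), (σ = 1 ∨ σ = -1) → ∃ (C : ℕ) (T₀ : ℝ), ∀ T x : ℝ, T₀ ≤ T →
    |x - 1 / 2| ≤ 2 / Real.log T →
    ∫ t in T..(2 * T), ‖E1 π a σ T (x + t * I)‖ ^ 2 ≤ T * Real.log T ^ C

/-- (Q4) -/
def T_Q4 : Prop :=
  ∀ (π : PrimChar) (a σ : ℂ), (σ = 1 ∨ σ = -1) → ∃ (C : ℕ) (T₀ : ℝ), ∀ T x : ℝ, T₀ ≤ T →
    |x - 1 / 2| ≤ 2 / Real.log T →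
    ∫ t in T..(2 * T), ‖E2 π a σ T (x + t * I)‖ ^ 2 ≤ T * Real.log T ^ C

/-- (M4) the fourth moment. -/
def T_M4 : Prop :=
  ∀ π : PrimChar, ∃ (C : ℕ) (T₀ : ℝ), ∀ T x : ℝ, T₀ ≤ T → |x - 1 / 2| ≤ 2 / Real.log T →
    ∫ t in T..(2 * T), ‖π.L (x + t * I)‖ ^ 4 ≤ T * Real.log T ^ C

/-- (ML) the fourth moment on a long interval. -/
def T_ML : Prop :=
  ∀ π : PrimChar, ∃ (C : ℕ) (T₀ : ℝ), ∀ T x : ℝ, T₀ ≤ T → |x - 1 / 2| ≤ 1 / Real.log T →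
    (∫ t in (1 : ℝ)..(4 * T), ‖π.L (x + t * I)‖ ^ 4 ≤ T * Real.log T ^ C) ∧
    ∫ t in (-(4 * T))..(4 * T), ‖π.L ((1 / 2 : ℝ) + t * I)‖ ^ 4 ≤ T * Real.log T ^ C

/-! ### Short and long part -/

/-- (AT) the tenth moment of the short part. -/
def T_AT : Prop :=
  ∀ π : PrimChar, ∃ (C : ℕ) (T₀ : ℝ), ∀ T x : ℝ, T₀ ≤ T → 1 / 2 - 1 / Real.log T ≤ x → x ≤ 2 →
    ∫ t in (1 : ℝ)..(2 * T), ‖Ash π (T ^ (1 / 5 : ℝ)) (x + t * I)‖ ^ 10 ≤ T * Real.log T ^ C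

/-- (HF) the long part. -/
def T_HF : Prop :=
  ∀ π : PrimChar, ∃ C : ℝ, 0 < C ∧ ∀ (N : ℝ) (s : ℂ), 1 ≤ N → 1 / 2 < s.re → s.re ≤ 5 / 4 →
    1 ≤ s.im →
    ‖Hsh π N s‖ ≤ C / (s.re - 1 / 2) * N ^ (-(s.re - 1 / 2)) *
      (∫ v : ℝ, ‖π.L ((1 / 2 : ℝ) + v * I)‖ * Real.exp (-|v - s.im|)) + C * N * Real.exp (-s.im)

/-- (HM) the fourth moment of the long part. -/
def T_HM : Prop :=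
  ∀ π : PrimChar, ∃ (C : ℕ) (T₀ : ℝ), ∀ T y : ℝ, T₀ ≤ T → 1 / Real.log T ≤ y → y ≤ 3 / 4 →
    ∫ t in (Real.log T)..(2 * T), ‖Hsh π (T ^ (1 / 5 : ℝ)) ((1 / 2 + y : ℝ) + t * I)‖ ^ 4 ≤
      T ^ (1 - 4 * y / 5) * Real.log T ^ C

/-- (MS) the fourth moment to the right of the line. -/
def T_MS : Prop :=
  ∀ π : PrimChar, ∃ (C : ℕ) (T₀ : ℝ), ∀ T x : ℝ, T₀ ≤ T → 1 / 2 - 1 / Real.log T ≤ x →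
    x ≤ 5 / 4 → ∫ t in (Real.log T)..(2 * T), ‖π.L (x + t * I)‖ ^ 4 ≤ T * Real.log T ^ C

/-! ### Zero density -/

/-- (DF) detection of zeros. -/
def T_DF : Prop :=
  ∀ π : PrimChar, ∃ C : ℝ, 0 < C ∧ ∀ (X : ℕ) (ρ : ℂ), 2 ≤ X → π.L ρ = 0 → 1 / 2 < ρ.re →
    ρ.re < 1 → 1 ≤ ρ.im →
    1 / 2 ≤ ‖Dt π X ρ‖ + C / (ρ.re - 1 / 2) * (X : ℝ) ^ (-(ρ.re - 1 / 2)) *
      (∫ v : ℝ, ‖π.L ((1 / 2 : ℝ) + v * I)‖ * ‖Mo π X ((1 / 2 : ℝ) + v * I)‖ *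
        Real.exp (-|v - ρ.im|)) + C * (X : ℝ) ^ 2 * Real.exp (-ρ.im)

/-- (DM) the mean squares of the detecting sum and of the mollifier. -/
def T_DM : Prop :=
  ∀ π : PrimChar, ∃ (C : ℕ) (T₀ : ℝ), ∀ T : ℝ, T₀ ≤ T →
    (∀ x : ℝ, 1 / 2 - 1 / Real.log T ≤ x → x ≤ 2 →
      ∫ t in (1 : ℝ)..(2 * T), ‖Dt π ⌊T⌋₊ (x + t * I)‖ ^ 2 ≤
        T ^ (1 - (2 * x - 1)) * Real.log T ^ C) ∧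
    ∫ t in (-T)..(3 * T), ‖Mo π ⌊T⌋₊ ((1 / 2 : ℝ) + t * I)‖ ^ 2 ≤ T * Real.log T ^ C

/-- (DE) the function `Dt` is entire. -/
def T_DE : Prop :=
  (∀ (π : PrimChar) (X : ℕ), 1 ≤ X → Differentiable ℂ (Dt π X)) ∧
  ∀ (π : PrimChar) (N : ℝ), 1 ≤ N → Differentiable ℂ (Ash π N)

/-- (IM) the moment of the second detector. -/
def T_IM : Prop :=
  ∀ π : PrimChar, ∃ (C : ℕ) (T₀ : ℝ), ∀ T : ℝ, T₀ ≤ T →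
    ∑ ρ ∈ zs π 1 T, (∫ v : ℝ, ‖π.L ((1 / 2 : ℝ) + v * I)‖ *
      ‖Mo π ⌊T⌋₊ ((1 / 2 : ℝ) + v * I)‖ * Real.exp (-|v - ρ.im|)) ^ (4 / 3 : ℝ) ≤
        T * Real.log T ^ C

open scoped Classical in
/-- (DN) zero density near the line. -/
def T_DN : Prop :=
  ∀ π : PrimChar, ∃ (C : ℕ) (T₀ : ℝ), ∀ T y : ℝ, T₀ ≤ T → 0 ≤ y → y ≤ 1 / 2 →
    (((zs π 1 T).filter fun ρ => 1 / 2 + y ≤ ρ.re).card : ℝ) ≤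
      T ^ (1 - 4 * y / 3) * Real.log T ^ C

/-! ### The upper bound -/

/-- (ST) a strip far from the line. -/
def T_ST : Prop :=
  ∀ χ ψ : PrimChar, ∃ (C : ℕ) (T₀ : ℝ), ∀ (T y : ℝ) (S : Finset ℂ), T₀ ≤ T →
    2 / Real.log T ≤ y → y ≤ 1 / 2 → S ⊆ zs χ (Real.log T + 1) T →
    (∀ ρ ∈ S, 1 / 2 + y ≤ ρ.re ∧ ρ.re ≤ 1 / 2 + y + 1 / Real.log T) →
    ∑ ρ ∈ S, ‖deriv χ.L ρ‖ * ‖ψ.L ρ‖ ≤ T ^ (1 - 16 * y / 15) * Real.log T ^ C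

/-- (FA) all zeros far from the line. -/
def T_FA : Prop :=
  ∀ χ ψ : PrimChar, ∃ (C₁ : ℕ) (T₀ : ℝ), 2 ≤ C₁ ∧ ∀ (T : ℝ) (S : Finset ℂ), T₀ ≤ T →
    S ⊆ zs χ (Real.log T + 1) T →
    (∀ ρ ∈ S, 1 / 2 + C₁ * Real.log (Real.log T) / Real.log T ≤ ρ.re) →
    ∑ ρ ∈ S, T ^ (ρ.re - 1 / 2) * (‖deriv χ.L ρ‖ * ‖ψ.L ρ‖) ≤ T / Real.log T ^ 5

/-- (NE) zeros near the line. -/
def T_NE : Prop :=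
  ∀ χ ψ : PrimChar, ∃ (C : ℕ) (T₀ : ℝ), ∀ (T : ℝ) (S : Finset ℂ), T₀ ≤ T →
    S ⊆ zs χ (Real.log T + 1) T → (∀ ρ ∈ S, 1 / 2 ≤ ρ.re) →
    ∑ ρ ∈ S, ‖deriv χ.L ρ‖ * ‖ψ.L ρ‖ ≤ Real.sqrt (S.card * T) * Real.log T ^ C

/-- (LO) low zeros and high zeros. -/
def T_LO : Prop :=
  ∀ χ ψ : PrimChar, ∃ (C : ℕ) (T₀ : ℝ), ∀ T : ℝ, T₀ ≤ T →
    (∑ ρ ∈ zs χ 1 (Real.log T + 2), ‖deriv χ.L ρ‖ * ‖(bar ψ).L (1 - ρ)‖ ≤ Real.log T ^ C) ∧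
    ∀ V : ℝ, ∑ ρ ∈ zs χ (T - 1) V, ‖deriv χ.L ρ‖ * ‖(bar ψ).L (1 - ρ)‖ *
      Real.exp (-(Real.log T ^ 3 / T / 2 * ρ.im)) ≤ 1

/-- (UB) the upper bound. -/
def T_UB : Prop :=
  ∀ (χ ψ : PrimChar) (m : ℕ) (t₀ : ℝ), 1 ≤ m → 1 < t₀ → t₀ < 2 → ∃ (C : ℕ) (T₀ : ℝ),
    ∀ T V : ℝ, T₀ ≤ T → T ≤ V →
      ‖Sz χ ψ (Real.log T ^ 3 / T) m t₀ V‖ ≤
        Real.log T ^ C * Real.sqrt ((gz χ ψ 0 T).card * T) + T / Real.log T ^ 4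

/-- the theorem -/
def T_TOP : Prop :=
  ∀ χ ψ : PrimChar, χ ≠ ψ → ∃ (A : ℕ) (T₀ : ℝ), ∀ T : ℝ, T₀ ≤ T →
    T / Real.log T ^ A ≤ (gz χ ψ 0 T).card

end Pool.Agent.H22.SZ
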